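import Pool.Agent.H313.CC.Core
import Pool.Agent.H313.CC.Dens

/-!
# The Tate conjecture over global fields for almost all coverings in towers of cyclic coverings

Let `E` be a number field, or the function field of a curve over a finite field, `ℓ` a prime, `n` prime
to `ℓ`, and `N = n ℓ ^ a` with `a > 0`; we assume that `E` contains the roots of unity of order `N` and
that `N` is not zero in `E`. Let `O` be a Dedekind domain with field of fractions `E` that is finitely
generated as a ring, for instance the ring of integers of a number field. Let `Z` be a smooth projective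
surface over `E`, geometrically connected, given in projective space of dimension `M` by forms `G i` over
`O`. Let `F` be a form over `O` whose degree is divisible by `N`. There are two cases.

(a) The degree of `F` is positive and the subset `F = 0` of `Z` is a smooth curve `B`. For `v ≠ 0` in
`O` let `X_v : w ^ N = v ^ n F` be the cyclic covering of `Z` of degree `N` branched along `B`; it is a
smooth projective surface and a covering of `X : w ^ n = F`.

(b) `Z` is the projective plane and `F = x₀ ^ e f` with `e > 0`, where the affine curve `f(x, y) = 0` of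
degree `d` is smooth and the leading form of `f` is squarefree. Let `X_v` be a smooth projective surface
which contains the smooth affine surface `w ^ N = v ^ n f(x, y)`, and `X` a smooth projective surface
which contains the surface `w ^ n = f(x, y)`. Every polynomial `f` can be used, there is no condition on
its degree, since we can choose `e`.

For almost all maximal ideals `p` of `O` the reductions modulo `p` of these data have the same
properties. Let `k` be the residue field, with `q` elements, and let `χ` be a character of `k` of order
`N`. As in `MP_0fca13_ag.TowersOfCyclicCoverings` the product `charProduct` for `ψ = χ ^ j`, `0 < j < N`,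
is the polynomial `det (1 - T Frob)` on the second cohomology with compact support of the complement
of `F = 0` in `Z` with coefficients in the Kummer sheaf of `ψ` for `F`, the other groups are zero
(`hpoly`), and `IsCoverPolynomial` holds for the covering of degree `n` with the polynomial
`P = det (1 - T Frob)` on the sum of the groups for the `ψ ≠ 1` whose order divides `n`, and for the
covering of degree `N` with the corresponding polynomial `P_v` for the `ψ ≠ 1` whose order divides `N`.
The quotient of the zeta functions of the subset `F = 0` of `Z` and of `Z` is `L₁ / L₂`. In case (b) we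
have `L₁ = (1 - q ^ 2 T) L` and `L₂ = 1 - q T`, where the zeta function of the affine curve `f = 0` is
`L(T) / (1 - q T)`; the degree of `L` is `(d - 1) ^ 2` and the degree of `P` is `(n - 1) (d - 1) ^ 2`.
-/

set_option autoImplicit false
set_option linter.all false
set_option maxHeartbeats 4000000

open Polynomial NumberField IsDedekindDomain

namespace Pool.Agent.Results.MP_89bcae_ag.AlmostAllCyclicCoverings

open Pool.Agent.TH639.SN (SpacePt normValue chart eulerProduct finite_le deg_pos chart_C_mul
  normValue_C_mul)

section defs

variable {k : Type} [Field k] {M s : ℕ}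

/-- The closed points of the subset `Z` of projective space of dimension `M` over `k` where the forms
`G i` vanish. The coordinate of index `index` is one, the following coordinates are zero, and the
preceding ones are the coordinates of the closed point `point` of affine space. -/
structure Pt (G : Fin s → MvPolynomial (Fin (M + 1)) k) : Type where
  index : Fin (M + 1)
  point : SpacePt index k
  vanish : ∀ i, normValue index k (chart index (G i)) point = 0

/-- The degree of a closed point. -/
noncomputable def Pt.degree {G : Fin s → MvPolynomial (Fin (M + 1)) k} (z : Pt G) : ℕ :=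
  Pool.Agent.TH639.SN.deg z.index k z.point

/-- The norm to `k` of the value of the form `F` at a closed point. -/
noncomputable def Pt.value {G : Fin s → MvPolynomial (Fin (M + 1)) k} (z : Pt G)
    (F : MvPolynomial (Fin (M + 1)) k) : k :=
  normValue z.index k (chart z.index F) z.point

variable (G : Fin s → MvPolynomial (Fin (M + 1)) k) (F : MvPolynomial (Fin (M + 1)) k)

/-- The inverse of the zeta function of `Z`. -/
noncomputable def zetaInv : PowerSeries ℤ :=
  eulerProduct (fun z : Pt G => z.degree) (fun z => 1 - PowerSeries.X ^ z.degree)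

/-- The inverse of the zeta function of the subset of `Z` where the form `F` vanishes. -/
noncomputable def branchZetaInv : PowerSeries ℤ :=
  eulerProduct (fun z : {z : Pt G // z.value F = 0} => z.1.degree)
    (fun z => 1 - PowerSeries.X ^ z.1.degree)

/-- The product over the closed points `z` of `Z` of the factors `1 - ψ(N F(z)) T ^ (deg z)`, where
`N F(z)` is the norm to `k` of the value of `F` at `z` and `ψ(0) = 0`. It is the inverse of the
`L`-function of the Kummer sheaf of `ψ` for `F`. -/
noncomputable def charProduct {A : Type} [CommRing A] (ψ : MulChar k A) : PowerSeries A :=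
  eulerProduct (fun z : Pt G => z.degree)
    (fun z => 1 - PowerSeries.C (ψ (z.value F)) * PowerSeries.X ^ z.degree)

/-- The zeta function of the subset `F = 0` of `Z` divided by the zeta function of `Z` is
`L₁ / L₂`. -/
structure IsZetaQuotient (L₁ L₂ : ℤ[X]) : Prop where
  constant : L₂.coeff 0 = 1
  quotient : branchZetaInv G F * (L₁ : PowerSeries ℤ) = zetaInv G * (L₂ : PowerSeries ℤ)

/-- `P` is the product of the products `charProduct` for the characters `χ ^ j`, `0 < j < N`. -/
def IsCoverPolynomial {A : Type} [CommRing A] (χ : MulChar k A) (N : ℕ) (P : ℤ[X]) : Prop :=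
  ∏ j ∈ Finset.Ico 1 N, charProduct G F (χ ^ j) =
    PowerSeries.map (algebraMap ℤ A) (P : PowerSeries ℤ)

/-- The multiplicity of the zero one of the reduction of `P` modulo `ℓ`. -/
noncomputable def multOne (ℓ : ℕ) (P : ℤ[X]) : ℕ :=
  (P.map (Int.castRingHom (ZMod ℓ))).rootMultiplicity 1

/-- The order of the zero of `P` at `T = 1 / q ^ r`, where `q` is the number of elements of `k`. -/
noncomputable def orderAt (k : Type) (r : ℕ) (P : ℤ[X]) : ℕ :=
  (P.map (Int.castRingHom ℚ)).rootMultiplicity ((Nat.card k : ℚ) ^ r)⁻¹

theorem finite_points [Finite k] (N : ℕ) : {z : Pt G | z.degree ≤ N}.Finite := by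
  have h1 : (⋃ j : Fin (M + 1), (fun z : SpacePt j k => (⟨j, z⟩ : Σ j : Fin (M + 1), SpacePt j k)) ''
      {z : SpacePt j k | Pool.Agent.TH639.SN.deg j k z ≤ N}).Finite :=
    Set.finite_iUnion fun j => (finite_le j k N).image _
  refine Set.Finite.of_finite_image
    (f := fun z : Pt G => (⟨z.index, z.point⟩ : Σ j : Fin (M + 1), SpacePt j k))
    (h1.subset ?_) ?_
  · rintro _ ⟨z, hz, rfl⟩
    simp only [Set.mem_iUnion]
    exact ⟨z.index, z.point, hz, rfl⟩
  · intro z _ z' _ h
    cases z
    cases z'
    simp only [Sigma.mk.injEq] at h
    obtain ⟨h1, h2⟩ := h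
    subst h1
    rw [heq_iff_eq] at h2
    subst h2
    rfl

theorem degree_pos (z : Pt G) : 0 < z.degree := deg_pos z.index k z.point

theorem value_C_mul (z : Pt G) (e : k) :
    z.value (MvPolynomial.C e * F) = e ^ z.degree * z.value F := by
  show normValue z.index k (chart z.index (MvPolynomial.C e * F)) z.point = _
  rw [chart_C_mul, normValue_C_mul]
  rfl

/-- The case of one finite field. -/
theorem finite_field (ℓ a n : ℕ) (hℓ : ℓ.Prime) (ha : a ≠ 0) (hn0 : 0 < n) (hn : n.Coprime ℓ)
    [Finite k] (K : Type) [Field K] [NumberField K]
    [IsCyclotomicExtension {n * ℓ ^ a} ℚ K] (χ : MulChar k (𝓞 K)) (hχ : orderOf χ = n * ℓ ^ a)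
    (L₁ L₂ P : ℤ[X]) (hL : IsZetaQuotient G F L₁ L₂) (hP : IsCoverPolynomial G F (χ ^ ℓ ^ a) n P)
    (hpoly : ∀ j ∈ Finset.Ico 1 (n * ℓ ^ a), ∃ Q : (𝓞 K)[X],
      charProduct G F (χ ^ j) = (Q : PowerSeries (𝓞 K))) (r : ℕ) :
    ∃ T : Finset kˣ, ℓ ^ a * T.card ≤ (Nat.card k - 1) *
        ((∑ i ∈ Finset.range a, ℓ ^ i) * (multOne ℓ L₁ - multOne ℓ L₂ + multOne ℓ P)) ∧
      ∀ v ∉ T, ∀ Pv : ℤ[X],
        IsCoverPolynomial G (MvPolynomial.C ((v : k) ^ n) * F) χ (n * ℓ ^ a) Pv →
          orderAt k r Pv = orderAt k r P := by
  have hP' : ∏ i ∈ Finset.Ico 1 n, Pool.Agent.H313.CC.cE (fun z : Pt G => z.degree)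
      (fun z => z.value F) (χ ^ (i * ℓ ^ a)) =
      PowerSeries.map (algebraMap ℤ (𝓞 K)) (P : PowerSeries ℤ) := by
    rw [← hP]
    refine Finset.prod_congr rfl fun i _ => ?_
    rw [← pow_mul, mul_comm]
    rfl
  obtain ⟨T, hT, hTv⟩ := Pool.Agent.H313.CC.tower_orders hℓ ha hn0 hn K hχ
    (d := fun z : Pt G => z.degree) (nv := fun z => z.value F) (finite_points G) (degree_pos G)
    hL.constant hL.quotient hP' hpoly r
  exact ⟨T, hT, fun v hv Pv hPv => hTv v hv (fun z => z.value (MvPolynomial.C ((v : k) ^ n) * F))
    (fun z => value_C_mul G F z _) Pv hPv⟩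

end defs

section residue

variable {O : Type} [CommRing O] [IsDedekindDomain O]

/-- The residue field at the maximal ideal `p`. -/
def Residue (p : HeightOneSpectrum O) : Type := O ⧸ p.asIdeal

noncomputable instance residueField (p : HeightOneSpectrum O) : Field (Residue p) :=
  @Ideal.Quotient.field O _ p.asIdeal p.isMaximal

/-- The reduction modulo `p`. -/
noncomputable def reduce (p : HeightOneSpectrum O) : O →+* Residue p :=
  Ideal.Quotient.mk p.asIdeal

variable {M s : ℕ}

/-- The reduction of a form. -/
noncomputable def reduceForm (p : HeightOneSpectrum O) (F : MvPolynomial (Fin (M + 1)) O) :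
    MvPolynomial (Fin (M + 1)) (Residue p) :=
  MvPolynomial.map (reduce p) F

/-- The hypotheses at the maximal ideal `p`: the residue field `k` is finite, `χ` is a character of `k`
of order `n ℓ ^ a`, the products for the characters `χ ^ j`, `0 < j < n ℓ ^ a`, are polynomials, the
quotient of the zeta functions of the subset `F = 0` of `Z` and of `Z` over `k` is `L₁ / L₂`, and `P` is
the polynomial for the covering `w ^ n = F` of `Z`. -/
structure IsGood (ℓ a n : ℕ) {A : Type} [CommRing A] (p : HeightOneSpectrum O)
    (χ : MulChar (Residue p) A) (G : Fin s → MvPolynomial (Fin (M + 1)) O)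
    (F : MvPolynomial (Fin (M + 1)) O) (L₁ L₂ P : ℤ[X]) : Prop where
  finite : Finite (Residue p)
  order : orderOf χ = n * ℓ ^ a
  poly : ∀ j ∈ Finset.Ico 1 (n * ℓ ^ a), ∃ Q : A[X],
    charProduct (fun i => reduceForm p (G i)) (reduceForm p F) (χ ^ j) = (Q : PowerSeries A)
  zeta : IsZetaQuotient (fun i => reduceForm p (G i)) (reduceForm p F) L₁ L₂
  cover : IsCoverPolynomial (fun i => reduceForm p (G i)) (reduceForm p F) (χ ^ ℓ ^ a) n P

/-- The polynomial `P_v` for the covering `w ^ (n ℓ ^ a) = v ^ n F` of `Z` over the residue field of
`p` has the same order of vanishing at `1 / q ^ r` as the polynomial `P`, where `v` is not in `p`. -/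
def SameOrder (ℓ a n r : ℕ) {A : Type} [CommRing A] (p : HeightOneSpectrum O)
    (χ : MulChar (Residue p) A) (G : Fin s → MvPolynomial (Fin (M + 1)) O)
    (F : MvPolynomial (Fin (M + 1)) O) (P : ℤ[X]) (v : O) : Prop :=
  v ∉ p.asIdeal ∧ ∀ Pv : ℤ[X],
    IsCoverPolynomial (fun i => reduceForm p (G i)) (reduceForm p (MvPolynomial.C (v ^ n) * F)) χ
      (n * ℓ ^ a) Pv → orderAt (Residue p) r Pv = orderAt (Residue p) r P

end residue

/-- **The Tate conjecture over global fields for almost all cyclic coverings in a tower.**

With the notation above let `S` be an infinite set of maximal ideals `p` of `O` such that the hypotheses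
`IsGood` hold with polynomials `L₁`, `L₂`, `P` (depending on `p`) for which
`multOne ℓ L₁ - multOne ℓ L₂ + multOne ℓ P < ℓ`. In case (b) all but finitely many `p` are such if
`n (d - 1) ^ 2 < ℓ`, since `multOne ℓ L₁ = 1 + multOne ℓ L` and `multOne ℓ L₂ = 1`, and the
multiplicities are at most the degrees.

Then for every `η > 0` there is a nonzero ideal `𝔪` of `O` with finite index such that, for at least the
proportion `1 - η` of the classes modulo `𝔪`, every `v` in the class has the following property: there
is a `p` in `S` with `v` not in `p`, such that the polynomials `P_v` and `P` over the residue field of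
`p` have the same order of vanishing at `1 / q ^ r`. So this holds for all `v` in `O` outside a set of
density zero.

Consequence (surfaces, `r = 1`). For these `v` the Tate conjecture for divisors, for the field `E` and
every prime different from the characteristic of `E`, holds for `X_v` if it holds for `X`. Indeed, let
`C` be the second cohomology with compact support of the complement of `F = 0` with coefficients,
twisted by one, in the sum of the Kummer sheaves for the characters `ψ` whose order divides `N` but
not `n`. The Frobenius at `p` does not have the eigenvalue one on `C`, so `C` and its quotients contain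
no invariants different from zero of the Galois group of `E`. In case (a) the second cohomology of
`X_v`, twisted by one, is the direct sum of that of `X` and of `C`. In case (b) it is the direct sum
of the space generated by the classes of the curves at infinity, of the quotient of the second
cohomology of `X` by the space generated by the classes of its curves at infinity, and of a quotient
of `C`. So all Tate classes on `X_v` are combinations of classes of curves at infinity and of inverse
images of Tate classes on `X`. (For the prime which is the residue characteristic of `p` one uses the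
crystalline comparison theorem.)

For `n = 1` we have `X = Z` and `P = 1`. So if `E` is a global field which contains the roots of unity of
order `ℓ ^ a`, of characteristic different from `ℓ`, and `f(x, y)` is a polynomial over `E` of degree
`d` with `(d - 1) ^ 2 < ℓ` such that the curve `f = 0` is smooth and the leading form of `f` is
squarefree, then the Tate conjecture holds for all the surfaces `w ^ (ℓ ^ a) = v f(x, y)`, for all `v`
in `O` outside a set of density zero. The same holds for the surfaces `w ^ (n ℓ ^ a) = v ^ n f(x, y)`,
`n (d - 1) ^ 2 < ℓ`, over a number field `E` if `w ^ n = f(x, y)` is a rational surface or a K3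
surface: `n = 2` and `d ≤ 6`, or `n` equal to `3` or `4` and `d ≤ 4`. The geometric genus of these
surfaces tends to infinity with `ℓ ^ a`. Every infinite set of good primes can be used for `S`, for
instance the primes which split completely in a given finite extension `E'` of `E`; so, for `v` in `O`
outside a set of density zero, the Tate conjecture over `E'` for `X_v` follows from that for `X`. -/
theorem result (ℓ a n : ℕ) (hℓ : ℓ.Prime) (ha : a ≠ 0) (hn0 : 0 < n) (hn : n.Coprime ℓ)
    (O : Type) [CommRing O] [IsDedekindDomain O] (K : Type) [Field K] [NumberField K]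
    [IsCyclotomicExtension {n * ℓ ^ a} ℚ K] (M s : ℕ) (G : Fin s → MvPolynomial (Fin (M + 1)) O)
    (F : MvPolynomial (Fin (M + 1)) O) (S : Set (HeightOneSpectrum O)) (hS : S.Infinite)
    (χ : ∀ p : HeightOneSpectrum O, MulChar (Residue p) (𝓞 K))
    (L₁ L₂ P : HeightOneSpectrum O → ℤ[X])
    (hgood : ∀ p ∈ S, IsGood ℓ a n p (χ p) G F (L₁ p) (L₂ p) (P p))
    (hM : ∀ p ∈ S, multOne ℓ (L₁ p) - multOne ℓ (L₂ p) + multOne ℓ (P p) < ℓ)
    (r : ℕ) (η : ℝ) (hη : 0 < η) :
    ∃ 𝔪 : Ideal O, 𝔪 ≠ ⊥ ∧ Finite (O ⧸ 𝔪) ∧ (1 - η) * (Nat.card (O ⧸ 𝔪) : ℝ) ≤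
      ({c : O ⧸ 𝔪 | ∀ v : O, Ideal.Quotient.mk 𝔪 v = c →
        ∃ p ∈ S, SameOrder ℓ a n r p (χ p) G F (P p) v}.ncard : ℝ) := by
  classical
  have hN : 0 < ℓ ^ a := pow_pos hℓ.pos a
  have hfin : ∀ p ∈ S, Finite (Pool.Agent.H313.CC.Res p) := fun p hp => (hgood p hp).finite
  -- the exceptional units
  have hT : ∀ p : HeightOneSpectrum O, ∃ T : Finset (Residue p)ˣ, p ∈ S →
      ℓ ^ a * T.card ≤ (Nat.card (Residue p) - 1) * (ℓ ^ a - 1) ∧
      ∀ v ∉ T, ∀ Pv : ℤ[X], IsCoverPolynomial (fun i => reduceForm p (G i))
        (MvPolynomial.C ((v : Residue p) ^ n) * reduceForm p F) (χ p) (n * ℓ ^ a) Pv →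
          orderAt (Residue p) r Pv = orderAt (Residue p) r (P p) := by
    intro p
    by_cases hp : p ∈ S
    · have hg := hgood p hp
      have := hg.finite
      obtain ⟨T, hT, hTv⟩ := finite_field (fun i => reduceForm p (G i)) (reduceForm p F) ℓ a n hℓ ha
        hn0 hn K (χ p) hg.order (L₁ p) (L₂ p) (P p) hg.zeta hg.cover hg.poly r
      refine ⟨T, fun _ => ⟨hT.trans (Nat.mul_le_mul_left _ ?_), hTv⟩⟩
      have h1 : multOne ℓ (L₁ p) - multOne ℓ (L₂ p) + multOne ℓ (P p) ≤ ℓ - 1 := by
        have := hM p hp
        omega
      have h2 : (∑ i ∈ Finset.range a, ℓ ^ i) * (ℓ - 1) + 1 = ℓ ^ a := by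
        have h3 := geom_sum_mul_add (ℓ - 1) a
        rwa [Nat.sub_add_cancel hℓ.one_lt.le] at h3
      have h4 := Nat.mul_le_mul_left (∑ i ∈ Finset.range a, ℓ ^ i) h1
      omega
    · exact ⟨∅, fun h => absurd h hp⟩
  choose T hT using hT
  obtain ⟨𝔪, h1, h2, h3⟩ := Pool.Agent.H313.CC.density S hS hfin
    (fun p => {u : Residue p | ∀ v : (Residue p)ˣ, (v : Residue p) = u → v ∈ T p})
    (δ := 1 - 1 / (2 * (ℓ ^ a : ℕ)))
    (by
      rw [sub_nonneg, div_le_one (by positivity)]
      have : (1 : ℝ) ≤ (ℓ ^ a : ℕ) := by exact_mod_cast hN
      linarith)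
    (by
      have : (0 : ℝ) < 1 / (2 * (ℓ ^ a : ℕ)) := by positivity
      linarith)
    (fun p hp => by
      have := (hgood p hp).finite
      exact Pool.Agent.H313.CC.exceptional (k := Residue p) hN (hT p hp).1) hη
  refine ⟨𝔪, h1, h2, h3.trans ?_⟩
  norm_cast
  refine Set.ncard_le_ncard ?_ (Set.toFinite _)
  intro c hc v hv
  obtain ⟨p, hp, hpv⟩ := hc v hv
  have hpv' : ¬ ∀ u : (Residue p)ˣ, (u : Residue p) = reduce p v → u ∈ T p := hpv
  push Not at hpv'
  obtain ⟨u, hu, huT⟩ := hpv'
  have hu' : (u : Residue p) = reduce p v := hu
  refine ⟨p, hp, ?_, ?_⟩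
  · intro hvp
    have h4 : reduce p v = 0 := Ideal.Quotient.eq_zero_iff_mem.2 hvp
    rw [h4] at hu'
    exact u.ne_zero hu'
  · intro Pv hPv
    refine (hT p hp).2 u huT Pv ?_
    have h5 : reduceForm p (MvPolynomial.C (v ^ n) * F) =
        MvPolynomial.C ((u : Residue p) ^ n) * reduceForm p F := by
      unfold reduceForm
      rw [map_mul, MvPolynomial.map_C, map_pow, hu']
    rwa [h5] at hPv

end Pool.Agent.Results.MP_89bcae_ag.AlmostAllCyclicCoverings
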