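import Mathlib
import Pool.Agent.TH115.GD.Defs
import Pool.Agent.TH115.ID.Defs
import Pool.Agent.X243.Gen.Fix

/-!
# The Tate conjecture at 2 for `y² = x (x² + a x + b)`: every `a` and 100% of the `b`, uniformly in `a`, with
# all twists by constants, over all extension fields

Let `R` be an integrally closed domain which is finitely generated as a ring and not a field, with
`2 ≠ 0` in `R`, and `k` its field of fractions (for example the ring of integers of a number field `k`).
Let `X` be the elliptic surface over the projective line with the generic fibre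

`E : y² = x (x² + a x + b)`,

with polynomials `a`, `b` in the variable `t` over `k` (every elliptic surface with a section of order two
is of this form), and put `d = a² - 4 b`.

Call `(a, b)` good if `b` and `d` are irreducible over `k`, of degree `N`, separable, and for EVERY
extension field `L` of `k` (for example `L = k`) with a separable closure `L'` the following holds.

(A) If the elements of `L` which are separable algebraic over `k` lie in a normal extension `M` of `k` in
`L'`, such that neither `b` nor `d` splits into linear factors over `M`, then for EVERY constant `δ ≠ 0` in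
`L` the Tate conjecture for divisors at the prime 2 holds over `L` for the surface with the generic fibre
`δ y² = x (x² + a x + b)`, or `y² = x (x² + δ a x + δ² b)`.

(B) The same holds if for each element of `L` which is separable algebraic over `k` the Galois group of
its minimal polynomial over `k` is solvable.

Theorem. Let `2 m ≤ N`, `N ≥ 5` (for example `m = 2 n`, `N = 4 n`, `n ≥ 2`).

(1) (Congruences.) For every `η > 0` there is an ideal `M` of `R` with finite quotient such that for EVERY
polynomial `a` over `R` of degree at most `m` a proportion at least `1 - η` of the residue classes modulo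
`M` of polynomials `b` of degree at most `N` over `R` has the property that `(a, b)` is good for EVERY
`b` over `R` in it. The ideal `M` does not depend on `a`.

(2) (100%.) Let `a 0`, `a 1`, ... be ANY sequence of polynomials over `R` of degree at most `m` (for
example a constant sequence), and `B 0`, `B 1`, ... a sequence of nonempty finite sets of polynomials
of degree at most `N` over `R` which is equidistributed modulo each ideal of `R` with finite quotient.
Then the proportion of the `b` in `B i` for which `(a i, b)` is good tends to `1`.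

So `a` is not random here, and nothing is assumed about `a`; the theorem holds for example for the
families `y² = x (x² + t^m x + b)` and for `y² = x (x² + α x + b)` with a constant `α`, which are
thin subfamilies of the family of all pairs `(a, b)`.

`TateAtTwo` is the statement about the Galois-invariant classes in the 2-adic Selmer group; as
`Br(X ⊗ L') = Ш(E / L'(t))` away from the characteristic (Grothendieck), it is the Tate conjecture for
divisors at the prime 2 on `X` over `L`.

The proof: Frobenius elements at maximal ideals of `R` modulo which `b` is irreducible, has an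
irreducible factor of degree `N - 1`, or is the product of an irreducible factor of degree two and of
distinct linear factors, show that the Galois group of `b` over `k` is the full symmetric group; the same
for `d`; then a descent via the isogenies of degree two. For fixed `a` the map `b ↦ a² - 4 b` is a bijection
modulo the ideals, so that the proportions do not depend on `a`, and the sieve is uniform.
-/

namespace Pool.Agent.Results.MP_89bcae_ag.FixedTraceAllFields

open Polynomial Pool.Agent.TH115.GD Pool.Agent.X243.Gen Filter Topology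
open scoped Classical

/-- The polynomial over `k` with the coefficients `c`. -/
noncomputable def poly {R : Type} [CommRing R] (k : Type) [Field k] [Algebra R k] {r : ℕ}
    (c : Fin r → R) : k[X] :=
  ∑ j : Fin r, C (algebraMap R k (c j)) * X ^ (j : ℕ)

/-- For every constant `δ ≠ 0` of `L` the Tate conjecture at 2 holds for `y² = x (x² + δ a x + δ² b)` over
`L` (`L'` is a separable closure of `L`, `K = L(t)`, `F = L'(t)`), for the polynomials `a`, `b` over the
subfield `k` of `L`. -/
def TwistsOver {k : Type} [Field k] (a b : k[X]) (L L' K F : Type) [Field L] [Field L'] [Algebra L L']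
    [Field K] [Algebra L[X] K] [Field F] [Algebra L'[X] F] [IsFractionRing L'[X] F] [Algebra K F]
    [Algebra k L] : Prop :=
  ∀ δ : L, δ ≠ 0 → TateAtTwo (F := F) L' (crvT (algebraMap L[X] K (C δ * a.map (algebraMap k L)))
    (algebraMap L[X] K (C (δ ^ 2) * b.map (algebraMap k L))))

/-- The good pairs. -/
structure Good (k : Type) [Field k] (N : ℕ) (a b : k[X]) : Prop where
  irrB : Irreducible b ∧ b.natDegree = N ∧ b.Separable
  irrD : Irreducible (a ^ 2 - 4 * b) ∧ (a ^ 2 - 4 * b).natDegree = N ∧ (a ^ 2 - 4 * b).Separable
  tate : ∀ (L L' K F : Type) [Field L] [Field L'] [Algebra L L'] [Field K] [Algebra L[X] K]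
    [Field F] [Algebra L'[X] F] [IsFractionRing L'[X] F] [Algebra K F]
    [Algebra k L] [Algebra k L'] [IsScalarTower k L L'], IsTower L L' K F →
      ∀ M : IntermediateField k L', Normal k M →
        (∀ x : L, IsSeparable k x → algebraMap L L' x ∈ M) →
        ¬ (b.map (algebraMap k M)).Splits → ¬ ((a ^ 2 - 4 * b).map (algebraMap k M)).Splits →
        TwistsOver a b L L' K F
  solv : ∀ (L L' K F : Type) [Field L] [Field L'] [Algebra L L'] [Field K] [Algebra L[X] K]
    [Field F] [Algebra L'[X] F] [IsFractionRing L'[X] F] [Algebra K F]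
    [Algebra k L] [Algebra k L'] [IsScalarTower k L L'], IsTower L L' K F →
      (∀ x : L, IsSeparable k x → Group.IsSolvable (minpoly k x).Gal) →
        TwistsOver a b L L' K F

/-- The polynomial `y` over `R` is in the residue class `z`. -/
def InClass {R : Type} [CommRing R] {N : ℕ} {M : Ideal R} (y : Fin (N + 1) → R)
    (z : Fin (N + 1) → R ⧸ M) : Prop := ∀ j, Ideal.Quotient.mk M (y j) = z j

/-- A sequence of finite sets of polynomials which is equidistributed modulo each ideal with finite
quotient. -/
def Equidistributed {R : Type} [CommRing R] {N : ℕ} (B : ℕ → Finset (Fin (N + 1) → R)) : Prop :=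
  ∀ M : Ideal R, Finite (R ⧸ M) → ∀ z : Fin (N + 1) → R ⧸ M,
    Tendsto (fun i => (((B i).filter (fun y => InClass y z)).card : ℝ) / ((B i).card : ℝ)) atTop
      (𝓝 (1 / (Nat.card (R ⧸ M) : ℝ) ^ (N + 1)))

theorem good_of {R k : Type} [CommRing R] [IsDomain R] [IsIntegrallyClosed R]
    [IsNoetherianRing R] [Field k] [Algebra R k] [IsFractionRing R k] (h2 : (2 : R) ≠ 0)
    {m N B : ℕ} {c : R} (hmN : 2 * m ≤ N) (hN : 5 ≤ N) {a : Fin (m + 1) → R}
    {y : Fin (N + 1) → R}
    (h : ∀ i : Bool × Fin 3, ∃ p ∈ Zc R B c,
      (fun j => Ideal.Quotient.mk p (y j)) ∈ Aev N (fl R) (fs N (Pool.Agent.Y160.T3.bF a)) i p) :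
    Good k N (poly k a) (poly k y) := by
  have h2k : (2 : k) ≠ 0 := by
    rw [← map_ofNat (algebraMap R k) 2]
    exact (map_ne_zero_iff _ (IsFractionRing.injective R k)).2 h2
  obtain ⟨h1, h3⟩ := ft_good (k := k) hmN (by omega) (Pool.Agent.X243.Tate.bF_nd a) h
    (Pool.Agent.X243.Tate.bF_map (algebraMap R k) a).symm
    (Pool.Agent.X243.Tate.bF_map (algebraMap R k) y).symm
  refine ⟨⟨h1.1.1, h1.1.2, h1.2.1⟩, ⟨h3.1.1, h3.1.2, h3.2.1⟩, ?_, ?_⟩
  · intro L L' K F _ _ _ _ _ _ _ _ _ _ _ _ hT M hMn hM hb hd δ hδ
    exact tate_extT h2k hN h1 h3 hT M hMn hM hb hd δ hδ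
  · intro L L' K F _ _ _ _ _ _ _ _ _ _ _ _ hT hM δ hδ
    exact tate_solvT h2k hN h1 h3 hT hM δ hδ

theorem result :
    ∀ (R k : Type) [CommRing R] [IsDomain R] [IsIntegrallyClosed R] [Algebra.FiniteType ℤ R]
      [Field k] [Algebra R k] [IsFractionRing R k], ¬ IsField R → (2 : R) ≠ 0 →
      ∀ m N : ℕ, 2 * m ≤ N → 5 ≤ N →
        (∀ η : ℝ, 0 < η → ∃ M : Ideal R, Finite (R ⧸ M) ∧ ∀ a : Fin (m + 1) → R,
          (1 - η) * (Nat.card (R ⧸ M) : ℝ) ^ (N + 1) ≤
          (({z : Fin (N + 1) → R ⧸ M | ∀ y : Fin (N + 1) → R, InClass y z →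
                Good k N (poly k a) (poly k y)}.ncard : ℕ) : ℝ)) ∧
        (∀ (a : ℕ → Fin (m + 1) → R) (B : ℕ → Finset (Fin (N + 1) → R)),
          (∀ i, (B i).Nonempty) → Equidistributed B →
          Tendsto (fun i => (((B i).filter (fun y => Good k N (poly k (a i)) (poly k y))).card : ℝ) /
            ((B i).card : ℝ)) atTop (𝓝 1)) := by
  intro R k _ _ _ _ _ _ _ hR h2 m N hmN hN
  have : IsNoetherianRing R := Algebra.FiniteType.isNoetherianRing ℤ R
  -- the good vectors
  obtain ⟨T, hT⟩ : ∃ T : (Fin (m + 1) → R) → Set (Fin (N + 1) → R),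
      ∀ a, T a = {y | Good k N (poly k a) (poly k y)} := ⟨_, fun _ => rfl⟩
  have key : ∀ η : ℝ, 0 < η → ∃ M : Ideal R, Finite (R ⧸ M) ∧ ∀ a : Fin (m + 1) → R,
      (1 - η) * (Nat.card (R ⧸ M) : ℝ) ^ (Fintype.card (Fin (N + 1))) ≤
        (({x : Fin (N + 1) → R ⧸ M | ∀ y : Fin (N + 1) → R,
          (∀ j, Ideal.Quotient.mk M (y j) = x j) → y ∈ T a}).ncard : ℝ) := by
    intro η hη
    obtain ⟨M, hM, hd⟩ := densAff R hR h2 (by omega : 3 ≤ N) (l := fl R) (fl_ne h2) η hη
    have := hM
    refine ⟨M, hM, fun a => (hd (fs N (Pool.Agent.Y160.T3.bF a))).trans ?_⟩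
    have h3 : ∀ S T : Set (Fin (N + 1) → R ⧸ M), S ⊆ T →
        ((S.ncard : ℕ) : ℝ) ≤ ((T.ncard : ℕ) : ℝ) := fun S T h => by
      exact_mod_cast Set.ncard_le_ncard h (Set.toFinite _)
    apply h3
    intro x hx y hy
    rw [hT]
    refine good_of h2 (B := 2 * N + 2) (c := ∏ i, fl R i) hmN hN (fun s => ?_)
    obtain ⟨p, hp, hp'⟩ := hx s
    exact ⟨p, hp, hp' y hy⟩
  constructor
  · intro η hη
    obtain ⟨M, hM, hd⟩ := key η hη
    refine ⟨M, hM, fun a => ?_⟩
    have h1 := hd a
    rw [Fintype.card_fin, hT] at h1
    exact h1
  · intro a B hB heq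
    have hc : ∀ (i : ℕ) (P Q : (Fin (N + 1) → R) → Prop) (d : DecidablePred P)
        (d' : DecidablePred Q), (∀ y, P y ↔ Q y) →
        (@Finset.filter _ P d (B i)).card = (@Finset.filter _ Q d' (B i)).card := by
      intro i P Q d d' hPQ
      congr 1
      ext y
      rw [Finset.mem_filter, Finset.mem_filter]
      exact and_congr_right fun _ => hPQ y
    have hlim := tendsto_of_densU (fun i => T (a i)) (fun η hη => by
        obtain ⟨M, hM, hd⟩ := key η hη
        exact ⟨M, hM, fun i => hd (a i)⟩) B hB (by
      intro M hM x
      have h1 := heq M hM x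
      rw [Fintype.card_fin]
      refine h1.congr fun i => ?_
      exact congrArg (fun s : ℕ => (s : ℝ) / ((B i).card : ℝ)) (hc i _ _ _ _ fun y => Iff.rfl))
    refine hlim.congr fun i => ?_
    exact congrArg (fun s : ℕ => (s : ℝ) / ((B i).card : ℝ))
      (hc i _ _ _ _ fun y => by rw [hT]; exact Iff.rfl)

end Pool.Agent.Results.MP_89bcae_ag.FixedTraceAllFields
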