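import Mathlib
import Pool.Agent.TH115.GD.Defs
import Pool.Agent.TH115.ID.Defs
import Pool.Agent.X243.Gen.Pull5
import Pool.Agent.X243.CD.RatHold
import Pool.Agent.X243.CD.RkTwoBase

/-!
# The Tate conjecture at 2 and the Mordell-Weil group for 100% of the pullbacks of an elliptic surface, over
# all finitely generated fields of characteristic different from 2

Let `R` be an integrally closed domain which is finitely generated as a ring and not a field, with
`2 ≠ 0` in `R`, and `k` its field of fractions. (Each infinite finitely generated field of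
characteristic different from 2 is the field of fractions of such an `R`.) Let

`E₀ : y² = x (x - a) (x - b)`

be an elliptic curve over `k(s)` with the following properties (`Base`): `a` and `b` are coprime
polynomials; `a`, `b` and `a - b` have the same even degree `e` and all their roots are in `k`; two of
them have a root of odd multiplicity; and the first descent over `k(s)` is complete (`Complete`): for all
monic squarefree divisors `A`, `B`, `D` of `a`, `b`, `a - b` with `A B` and `A D` of even degree there is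
a point `P` in `E₀(k(s))` with `x(P) = A B` and `x(P) - a = A D` up to constants of `k` and squares of
`k(s)`.

For coprime polynomials `q`, `r` over `k` in the variable `t`, of degree at most `n`, let `X` be the
elliptic surface which is the pullback of `E₀` by the rational function `s = q / r`,

`E : y² = x (x - r^e a(q / r)) (x - r^e b(q / r))`,

a surface of geometric genus `e n / 2 - 1` if all is in general position.

Call `(q, r)` good if `q`, `r` are coprime, `q`, `r` and the polynomials `q - ξ r` for the roots `ξ` of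
`a b (a - b)` are irreducible over `k`, separable, of degree `n`, and for EVERY extension field `L` of
`k` (for example `L = k`) with a separable closure `L'` the following holds.

(A) If the elements of `L` which are separable algebraic over `k` lie in a normal extension `M` of `k` in
`L'` such that no polynomial `q - ξ r` splits into linear factors over `M`, then (`HoldsOver`)

(i) the Tate conjecture for divisors at the prime 2 holds for `X` over `L`;

(ii) the first descent on `E` over `L(t)` is complete;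

(iii) `E(L(t)) = 2 E(L(t)) + E₀(k(s))`, where `E₀(k(s))` is embedded by `s = q / r` (`FromBase`: every point
of `E` over `L(t)` is `2 Q + P₁`, where `P₁` is the point at infinity or `(r^e x, r^(3 e / 2) y)` with
`x`, `y` in the image of `k(s)`; then `(x, y)` is a point of `E₀` over `k(s)`). So if `E(L(t))` is
finitely generated, for example if `L` is finitely generated, then its rank is the rank of `E₀(k(s))`.

(B) The same holds if for each element of `L` which is separable algebraic over `k` the Galois group of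
its minimal polynomial over `k` is solvable.

Theorem. Let `n ≥ 5` be odd.

(1) (Congruences.) For every `η > 0` there is an ideal `M` of `R` with finite quotient and a set of
residue classes modulo `M` of pairs `(q, r)` over `R` of degrees at most `n` in `t`, with proportion at
least `1 - η` among all the residue classes, such that EVERY pair over `R` in one of these residue
classes is good.

(2) (100%.) Let `B 0`, `B 1`, ... be a sequence of nonempty finite sets of such pairs over `R` which is
equidistributed modulo each ideal of `R` with finite quotient. Then the proportion of the good pairs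
in `B i` tends to `1`.

(3) (Examples.) The curve `E₀ : y² = x (x - (β² s² - 1)) (x - (β² - 1) s²)` has the properties, over every
field `k` of characteristic different from 2, for `β` in `k` with `β ≠ 0, 1, -1`. (It is a rational
elliptic surface with fibres `I₂, I₂, I₂, I₂, I₄`, and `E₀` has the point
`((β + 1) s (β s + 1), (β + 1) s (β s + 1) (s + 1))`.) The curve
`E₀ : y² = x (x - ((α s + β)² - s²)) (x - ((α s + β)² - 1))` has the properties for `α`, `β` in `k` with
`α ≠ 0, 1, -1`, `β ≠ 0`, for which `((α + β)² - 1) ((α - β)² - 1)` is a nonzero square. (It is a rational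
elliptic surface with six fibres `I₂`, and its Mordell-Weil group has rank two.)

So for this type of surfaces the Tate conjecture at 2 and the rank for a generic pullback need only the
calculation of the Mordell-Weil group (modulo 2) of the base surface. `TateAtTwo` is the statement that
the Galois-invariant classes of the 2-adic Selmer group come from points; as
`Br(X ⊗ L') = Ш(E / L'(t))` away from the characteristic (Grothendieck), it is the Tate conjecture for
divisors for `ℓ = 2` and `X` over `L`.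

The proof: Frobenius elements at maximal ideals of `R` show that the Galois groups of the polynomials
`q - ξ r` over `k` are the full symmetric groups; so over `L` they stay irreducible; then the classes
of order two fixed by the Galois group are pullbacks of classes over `k(s)`, and these come from
points. A positive proportion of the residue classes modulo each maximal ideal of `R` with a large
residue field (which does not contain a fixed nonzero element) has each of the necessary properties,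
and a sieve.
-/

namespace Pool.Agent.Results.MP_89bcae_ag.PullbackPrinciple

open Polynomial Pool.Agent.TH115.GD Filter Topology
open Pool.Agent.X243.CD (FromBase)
open scoped Classical

/-- The polynomial over `k` with the coefficients `c`. -/
noncomputable def poly {R : Type} [CommRing R] (k : Type) [Field k] [Algebra R k] {r : ℕ}
    (c : Fin r → R) : k[X] :=
  ∑ j : Fin r, C (algebraMap R k (c j)) * X ^ (j : ℕ)

/-- The polynomial `r ^ e g(q / r)`, where `e` is the degree of `g`. -/
noncomputable def pull {k : Type} [Field k] (g q r : k[X]) : k[X] :=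
  ∑ i ∈ Finset.range (g.natDegree + 1), C (g.coeff i) * q ^ i * r ^ (g.natDegree - i)

/-- The first descent on `y² = x (x - a) (x - b)` over `K = k(t)` is complete: for all monic squarefree
divisors `A`, `B`, `D` of `a`, `b`, `a - b` with `A B` and `A D` of even degree there is a point `P` over
`K` such that `x(P) = A B` and `x(P) - a = A D` up to nonzero constants of `k` and squares of `K`.
(`d0` and `d1` are `x` and `x - a`, corrected as usual for the points `(0, 0)` and `(a, 0)`.) -/
def Complete {k : Type} [Field k] (K : Type) [Field K] [Algebra k[X] K] (a b : k[X]) : Prop :=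
  ∀ A B D : k[X], A.Monic → B.Monic → D.Monic → Squarefree A → Squarefree B → Squarefree D →
    A ∣ a → B ∣ b → D ∣ a - b → Even (A * B).natDegree → Even (A * D).natDegree →
    ∃ P : Pt (crv (algebraMap k[X] K a) (algebraMap k[X] K b)) K,
      (∃ (c : k) (h : K), c ≠ 0 ∧ h ≠ 0 ∧ algebraMap k[X] K (C c * (A * B)) =
        h ^ 2 * d0 (algebraMap k[X] K a) (algebraMap k[X] K b) P) ∧
      (∃ (c : k) (h : K), c ≠ 0 ∧ h ≠ 0 ∧ algebraMap k[X] K (C c * (A * D)) =
        h ^ 2 * d1 (algebraMap k[X] K a) (algebraMap k[X] K b) P)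

/-- The polynomial has a root in `k` of odd multiplicity. -/
def OddRoot {k : Type} [Field k] (g : k[X]) : Prop := ∃ ξ : k, Odd (g.rootMultiplicity ξ)

/-- The properties of the base `y² = x (x - a) (x - b)` over `K₀ = k(s)`. -/
structure Base {k : Type} [Field k] (K₀ : Type) [Field K₀] [Algebra k[X] K₀] (a b : k[X]) : Prop where
  ne : a ≠ 0 ∧ b ≠ 0 ∧ a ≠ b
  cop : IsCoprime a b
  deg : b.natDegree = a.natDegree ∧ (a - b).natDegree = a.natDegree ∧ Even a.natDegree
  split : (a * b * (a - b)).Splits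
  odd : (OddRoot a ∧ OddRoot b) ∨ (OddRoot a ∧ OddRoot (a - b)) ∨ (OddRoot b ∧ OddRoot (a - b))
  complete : Complete K₀ a b

/-- The polynomials `q - ξ r`, where `ξ` is a root of `a b (a - b)`. -/
def forms {k : Type} [Field k] (a b q r : k[X]) : Set k[X] :=
  {f | ∃ ξ : k, (a * b * (a - b)).IsRoot ξ ∧ f = q - C ξ * r}

/-- The Tate conjecture at 2 for the pullback of `y² = x (x - a) (x - b)` by `q / r` over `L` (`L'` is a
separable closure of `L`, `K = L(t)`, `F = L'(t)`), the completeness of the first descent over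
`L(t)`, and the statement that all points over `K` come modulo 2 from the points of the base over
`K₀ = k(s)`, for data over the subfield `k` of `L`. -/
def HoldsOver {k : Type} [Field k] (a b q r : k[X]) (K₀ L L' K F : Type) [Field K₀]
    [Algebra k[X] K₀] [Field L] [Field L']
    [Algebra L L'] [Field K] [Algebra L[X] K] [Field F] [Algebra L'[X] F] [IsFractionRing L'[X] F]
    [Algebra K F] [Algebra k L] : Prop :=
  TateAtTwo (F := F) L' (crv (algebraMap L[X] K ((pull a q r).map (algebraMap k L)))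
    (algebraMap L[X] K ((pull b q r).map (algebraMap k L)))) ∧
  Complete K ((pull a q r).map (algebraMap k L)) ((pull b q r).map (algebraMap k L)) ∧
  FromBase (k := k) K₀ K (a.natDegree / 2) (q.map (algebraMap k L)) (r.map (algebraMap k L))
    ((pull a q r).map (algebraMap k L)) ((pull b q r).map (algebraMap k L))

/-- The good pairs. -/
structure Good (k : Type) [Field k] (K₀ : Type) [Field K₀] [Algebra k[X] K₀] (a b : k[X]) (n : ℕ)
    (q r : k[X]) : Prop where
  irr_q : Irreducible q ∧ q.natDegree = n ∧ q.Separable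
  irr_r : Irreducible r ∧ r.natDegree = n ∧ r.Separable
  irr : ∀ f ∈ forms a b q r, Irreducible f ∧ f.natDegree = n ∧ f.Separable
  cop : IsCoprime q r
  tate : ∀ (L L' K F : Type) [Field L] [Field L'] [Algebra L L'] [Field K] [Algebra L[X] K]
    [Field F] [Algebra L'[X] F] [IsFractionRing L'[X] F] [Algebra K F]
    [Algebra k L] [Algebra k L'] [IsScalarTower k L L'], IsTower L L' K F →
      ∀ M : IntermediateField k L', Normal k M →
        (∀ x : L, IsSeparable k x → algebraMap L L' x ∈ M) →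
        (∀ f ∈ forms a b q r, ¬ (f.map (algebraMap k M)).Splits) →
          HoldsOver a b q r K₀ L L' K F
  solv : ∀ (L L' K F : Type) [Field L] [Field L'] [Algebra L L'] [Field K] [Algebra L[X] K]
    [Field F] [Algebra L'[X] F] [IsFractionRing L'[X] F] [Algebra K F]
    [Algebra k L] [Algebra k L'] [IsScalarTower k L L'], IsTower L L' K F →
      (∀ x : L, IsSeparable k x → Group.IsSolvable (minpoly k x).Gal) →
        HoldsOver a b q r K₀ L L' K F

/-- The pairs of coefficient vectors of polynomials of degree at most `n`. -/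
abbrev Pairs (n : ℕ) (R : Type) : Type := (Fin (n + 1) → R) × (Fin (n + 1) → R)

/-- The pair `y` over `R` is in the residue class `z`. -/
def InClass {R : Type} [CommRing R] {n : ℕ} {M : Ideal R} (y : Pairs n R)
    (z : Pairs n (R ⧸ M)) : Prop :=
  (∀ j, Ideal.Quotient.mk M (y.1 j) = z.1 j) ∧ (∀ j, Ideal.Quotient.mk M (y.2 j) = z.2 j)

/-- A sequence of finite sets of pairs which is equidistributed modulo each ideal with finite
quotient. -/
def Equidistributed {R : Type} [CommRing R] {n : ℕ} (B : ℕ → Finset (Pairs n R)) : Prop :=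
  ∀ M : Ideal R, Finite (R ⧸ M) → ∀ z : Pairs n (R ⧸ M),
    Tendsto (fun i => (((B i).filter (fun y => InClass y z)).card : ℝ) / ((B i).card : ℝ)) atTop
      (𝓝 (1 / (Nat.card (Pairs n (R ⧸ M)) : ℝ)))

section base

variable {k : Type} [Field k]

theorem pull_eq (g q r : k[X]) : pull g q r = Pool.Agent.X243.Gen.pb q r g :=
  (Pool.Agent.X243.Gen.pb_sum q r g).symm

theorem odd_of {g : k[X]} (hg : g ≠ 0) (h : OddRoot g) : HasOddFactor g := by
  obtain ⟨ξ, m, hm⟩ := h
  refine ⟨X - C ξ, m, irreducible_X_sub_C ξ, by rw [natDegree_X_sub_C]; exact odd_one, ?_, ?_⟩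
  · rw [← hm]
    exact pow_rootMultiplicity_dvd g ξ
  · intro h1
    have := (le_rootMultiplicity_iff hg).2 h1
    omega

theorem of_odd {g : k[X]} (hg : g ≠ 0) (hs : g.Splits) (h : HasOddFactor g) : OddRoot g := by
  obtain ⟨π, m, hπ, -, hd, hnd⟩ := h
  have h1 : π ∣ g := (dvd_pow_self π (by omega)).trans hd
  obtain ⟨ξ, h3⟩ : ∃ ξ, π ∣ X - C ξ := by
    have h4 := h1
    rw [hs.eq_prod_roots] at h4
    rcases hπ.prime.dvd_or_dvd h4 with h5 | h5
    · exact absurd (isUnit_of_dvd_unit h5 (isUnit_C.2 (isUnit_iff_ne_zero.2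
        (leadingCoeff_ne_zero.2 hg)))) hπ.not_isUnit
    · obtain ⟨ξ, -, h6⟩ := hπ.prime.exists_mem_multiset_map_dvd h5
      exact ⟨ξ, h6⟩
  have has : Associated π (X - C ξ) := hπ.associated_of_dvd (irreducible_X_sub_C ξ) h3
  refine ⟨ξ, m, ?_⟩
  have h5 : 2 * m + 1 ≤ g.rootMultiplicity ξ :=
    (le_rootMultiplicity_iff hg).2 ((has.pow_pow.dvd_iff_dvd_left).1 hd)
  have h6 : ¬ 2 * m + 2 ≤ g.rootMultiplicity ξ := fun h =>
    hnd ((has.pow_pow.dvd_iff_dvd_left).2 ((le_rootMultiplicity_iff hg).1 h))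
  omega

theorem base_of {K₀ : Type} [Field K₀] [Algebra k[X] K₀] {a b : k[X]} (h : Base K₀ a b) :
    Pool.Agent.X243.Gen.Base K₀ a b := by
  obtain ⟨⟨ha, hb, hab⟩, cop, ⟨d1, d2, d3⟩, split, odd, comp⟩ := h
  have hc0 : a - b ≠ 0 := sub_ne_zero.2 hab
  have h0 : a * b * (a - b) ≠ 0 := mul_ne_zero (mul_ne_zero ha hb) hc0
  refine ⟨ha, hb, hab, cop, split.of_dvd h0 ((dvd_mul_right a b).mul_right _),
    split.of_dvd h0 ((dvd_mul_left b a).mul_right _), split.of_dvd h0 (dvd_mul_left _ _), ?_, ?_⟩
  · right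
    rcases odd with ⟨h1, h3⟩ | ⟨h1, h3⟩ | ⟨h1, h3⟩
    · exact Or.inl ⟨odd_of ha h1, odd_of hb h3⟩
    · exact Or.inr (Or.inl ⟨odd_of ha h1, odd_of hc0 h3⟩)
    · exact Or.inr (Or.inr ⟨odd_of hb h1, odd_of hc0 h3⟩)
  · intro A B D mA mB mD sA sB sD dA dB dD hinf
    obtain ⟨i1, i2, -⟩ := hinf (by rw [d1, max_self]; exact d3)
    exact comp A B D mA mB mD sA sB sD dA dB dD (i1 d1.symm)
      (i2 (by rw [d1, max_self]) (by rw [d1, max_self, d2]))

theorem two_of {K₀ : Type} [Field K₀] [Algebra k[X] K₀] {a b : k[X]} (h : Base K₀ a b) :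
    TwoOddFactors a b := by
  obtain ⟨⟨ha, hb, hab⟩, cop, ⟨d1, d2, d3⟩, split, odd, comp⟩ := h
  have hc0 : a - b ≠ 0 := sub_ne_zero.2 hab
  rcases odd with ⟨h1, h3⟩ | ⟨h1, h3⟩ | ⟨h1, h3⟩
  · exact Or.inl ⟨odd_of ha h1, odd_of hb h3⟩
  · exact Or.inr (Or.inl ⟨odd_of ha h1, odd_of hc0 h3⟩)
  · exact Or.inr (Or.inr ⟨odd_of hb h1, odd_of hc0 h3⟩)

theorem of_base {K₀ : Type} [Field K₀] [Algebra k[X] K₀] {a b : k[X]}
    (h : Pool.Agent.X243.Gen.Base K₀ a b) (h1 : b.natDegree = a.natDegree)
    (h3 : (a - b).natDegree = a.natDegree) (h4 : Even a.natDegree) : Base K₀ a b := by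
  obtain ⟨ha, hb, hab, co, sa, sb, sc, odd, hC⟩ := h
  have hc0 : a - b ≠ 0 := sub_ne_zero.2 hab
  refine ⟨⟨ha, hb, hab⟩, co, ⟨h1, h3, h4⟩, (sa.mul sb).mul sc, ?_, ?_⟩
  · rcases odd with h | h
    · rw [h1, max_self] at h
      exact absurd h (Nat.not_odd_iff_even.2 h4)
    · rcases h with ⟨o1, o2⟩ | ⟨o1, o2⟩ | ⟨o1, o2⟩
      · exact Or.inl ⟨of_odd ha sa o1, of_odd hb sb o2⟩
      · exact Or.inr (Or.inl ⟨of_odd ha sa o1, of_odd hc0 sc o2⟩)
      · exact Or.inr (Or.inr ⟨of_odd hb sb o1, of_odd hc0 sc o2⟩)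
  · intro A B D mA mB mD sA sB sD dA dB dD e1 e2
    refine hC A B D mA mB mD sA sB sD dA dB dD ?_
    intro _
    refine ⟨fun _ => e1, fun _ _ => e2, fun _ _ => ?_⟩
    rw [natDegree_mul mA.ne_zero mB.ne_zero] at e1
    rw [natDegree_mul mA.ne_zero mD.ne_zero] at e2
    rw [natDegree_mul mB.ne_zero mD.ne_zero]
    rw [Nat.even_add] at e1 e2 ⊢
    exact e1.symm.trans e2

/-- The completeness over `L(t)`. -/
theorem complete_of {K : Type} [Field K] [Algebra k[X] K] {a b : k[X]}
    (h : Pool.Agent.X243.Gen.Complete K a b) : Complete K a b := by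
  intro A B D mA mB mD sA sB sD dA dB dD e1 e2
  refine h A B D mA mB mD sA sB sD dA dB dD ?_
  intro _
  refine ⟨fun _ => e1, fun _ _ => e2, fun _ _ => ?_⟩
  rw [natDegree_mul mA.ne_zero mB.ne_zero] at e1
  rw [natDegree_mul mA.ne_zero mD.ne_zero] at e2
  rw [natDegree_mul mB.ne_zero mD.ne_zero]
  rw [Nat.even_add] at e1 e2 ⊢
  exact e1.symm.trans e2

end base

theorem good_of {R k K₀ : Type} [CommRing R] [IsDomain R] [IsIntegrallyClosed R]
    [IsNoetherianRing R] [Field k] [Algebra R k] [IsFractionRing R k] [Field K₀] [Algebra k[X] K₀]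
    [IsFractionRing k[X] K₀] (h2 : (2 : R) ≠ 0) {a b : k[X]} (hB : Base K₀ a b)
    {n B : ℕ} {c : R} (hn : 5 ≤ n) (hodd : Odd n) {y : Fin (n + 1) ⊕ Fin (n + 1) → R}
    (h : ∀ s : Option (Option (Option ((a * b * (a - b)).roots.toFinset)) × Fin 3),
      ∃ p ∈ Pool.Agent.X243.Gen.Zc R B c,
      (fun j => Ideal.Quotient.mk p (y j)) ∈ Pool.Agent.X243.Gen.Lev n
        (Pool.Agent.X243.Gen.ql R (a * b * (a - b)).roots.toFinset)
        (Pool.Agent.X243.Gen.qm R (a * b * (a - b)).roots.toFinset) none (some none) s p) :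
    Good k K₀ a b n (poly k (y ∘ Sum.inl)) (poly k (y ∘ Sum.inr)) := by
  have h2k : (2 : k) ≠ 0 := by
    rw [← map_ofNat (algebraMap R k) 2]
    exact (map_ne_zero_iff _ (IsFractionRing.injective R k)).2 h2
  obtain ⟨fq, fr, h1, hco⟩ := Pool.Agent.X243.Gen.pull_good (by omega) h
    (poly k (y ∘ Sum.inl)) (poly k (y ∘ Sum.inr))
    (Pool.Agent.X243.Tate.bF_map (algebraMap R k) (y ∘ Sum.inl)).symm
    (Pool.Agent.X243.Tate.bF_map (algebraMap R k) (y ∘ Sum.inr)).symm
  have hne := hB.ne
  have h0 : a * b * (a - b) ≠ 0 :=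
    mul_ne_zero (mul_ne_zero hne.1 hne.2.1) (sub_ne_zero.2 hne.2.2)
  have hf : ∀ ξ, (a * b * (a - b)).IsRoot ξ →
      Pool.Agent.X243.Gen.FF n (poly k (y ∘ Sum.inl) - C ξ * poly k (y ∘ Sum.inr)) :=
    fun ξ hξ => h1 ξ (Multiset.mem_toFinset.2 ((mem_roots h0).2 hξ))
  have hB' := base_of hB
  have htwo := two_of hB
  obtain ⟨m, hm⟩ := hB.deg.2.2
  have hm2 : a.natDegree / 2 = m := by omega
  refine ⟨⟨fq.1.1, fq.1.2, fq.2.1⟩, ⟨fr.1.1, fr.1.2, fr.2.1⟩, ?_, hco, ?_, ?_⟩
  · rintro f ⟨ξ, hξ, rfl⟩
    exact ⟨(hf ξ hξ).1.1, (hf ξ hξ).1.2, (hf ξ hξ).2.1⟩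
  · intro L L' K F _ _ _ _ _ _ _ _ _ _ _ _ hT M hMn hM hns
    have key := Pool.Agent.X243.Gen.pull_ext h2k hB' hn hodd hco fq.1.2 hf (Or.inr hB.deg) hT M hMn hM
      (fun ξ hξ => hns _ ⟨ξ, hξ, rfl⟩)
    have key2 := Pool.Agent.X243.CD.rat_ext h2k hB' htwo hn hodd hco fq.1.2 hf hm hB.deg.1
      hB.deg.2.1 hT M hMn hM (fun ξ hξ => hns _ ⟨ξ, hξ, rfl⟩)
    unfold HoldsOver
    rw [pull_eq, pull_eq, hm2]
    exact ⟨key.1, complete_of key.2, key2⟩
  · intro L L' K F _ _ _ _ _ _ _ _ _ _ _ _ hT hM
    have key := Pool.Agent.X243.Gen.pull_solv h2k hB' hn hodd hco fq.1.2 hf (Or.inr hB.deg) hT hM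
    have key2 := Pool.Agent.X243.CD.rat_solv h2k hB' htwo hn hodd hco fq.1.2 hf hm hB.deg.1
      hB.deg.2.1 hT hM
    unfold HoldsOver
    rw [pull_eq, pull_eq, hm2]
    exact ⟨key.1, complete_of key.2, key2⟩

/-- The vector of all the coefficients. -/
def toVec {R : Type} {n : ℕ} (z : Pairs n R) : Fin (n + 1) ⊕ Fin (n + 1) → R :=
  Sum.elim z.1 z.2

theorem toVec_inj {R : Type} {n : ℕ} : Function.Injective (toVec (R := R) (n := n)) := by
  rintro ⟨a, b⟩ ⟨a', b'⟩ h
  exact Prod.ext (funext fun j => congrFun h (Sum.inl j)) (funext fun j => congrFun h (Sum.inr j))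

theorem toVec_surj {R : Type} {n : ℕ} (y : Fin (n + 1) ⊕ Fin (n + 1) → R) :
    ∃ z : Pairs n R, toVec z = y := ⟨(y ∘ Sum.inl, y ∘ Sum.inr), Sum.elim_comp_inl_inr y⟩

theorem inClass_iff {R : Type} [CommRing R] {n : ℕ} {M : Ideal R} (y : Pairs n R)
    (z : Pairs n (R ⧸ M)) :
    InClass y z ↔ ∀ j, Ideal.Quotient.mk M (toVec y j) = toVec z j := by
  constructor
  · rintro ⟨h1, h2⟩ (j | j)
    · exact h1 j
    · exact h2 j
  · intro h
    exact ⟨fun j => h (Sum.inl j), fun j => h (Sum.inr j)⟩

theorem result :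
    (∀ (R k K₀ : Type) [CommRing R] [IsDomain R] [IsIntegrallyClosed R] [Algebra.FiniteType ℤ R]
      [Field k] [Algebra R k] [IsFractionRing R k] [Field K₀] [Algebra k[X] K₀]
      [IsFractionRing k[X] K₀], ¬ IsField R → (2 : R) ≠ 0 →
      ∀ a b : k[X], Base K₀ a b → ∀ n : ℕ, 5 ≤ n → Odd n →
        (∀ η : ℝ, 0 < η → ∃ M : Ideal R, Finite (R ⧸ M) ∧
          (1 - η) * (Nat.card (Pairs n (R ⧸ M)) : ℝ) ≤
          (({z : Pairs n (R ⧸ M) | ∀ y : Pairs n R, InClass y z →
                Good k K₀ a b n (poly k y.1) (poly k y.2)}.ncard : ℕ) : ℝ)) ∧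
        (∀ B : ℕ → Finset (Pairs n R), (∀ i, (B i).Nonempty) → Equidistributed B →
          Tendsto (fun i => (((B i).filter (fun y => Good k K₀ a b n (poly k y.1)
            (poly k y.2))).card : ℝ) / ((B i).card : ℝ)) atTop (𝓝 1))) ∧
    (∀ (k K₀ : Type) [Field k] [Field K₀] [Algebra k[X] K₀] [IsFractionRing k[X] K₀],
      (2 : k) ≠ 0 →
        (∀ α β μ : k, α ≠ 0 → α ≠ 1 → α ≠ -1 → β ≠ 0 → μ ≠ 0 →
          ((α + β) ^ 2 - 1) * ((α - β) ^ 2 - 1) = μ ^ 2 →
          Base K₀ ((C α * X + C β) ^ 2 - X ^ 2) ((C α * X + C β) ^ 2 - 1)) ∧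
        ∀ β : k, β ≠ 0 → β ≠ 1 → β ≠ -1 →
          Base K₀ (C (β ^ 2) * X ^ 2 - 1) (C (β ^ 2 - 1) * X ^ 2)) := by
  constructor
  swap
  · intro k K₀ _ _ _ _ h2
    constructor
    · intro α β μ hα hα1 hα2 hβ hμ hsq
      obtain ⟨h1, -, h3, h4, h5⟩ := Pool.Agent.X243.CD.rk2_base (K := K₀) h2 hα hα1 hα2 hβ hμ hsq
      exact of_base h1 h3 h4 (by rw [h5]; exact even_two)
    intro β hβ hβ1 hβ2
    obtain ⟨h1, h3, h4, h5⟩ := Pool.Agent.X243.Gen.base5 (K := K₀) h2 hβ hβ1 hβ2
    have h6 : Even (Pool.Agent.X243.Gen.a5 β).natDegree := by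
      rw [h5]
      exact even_two
    exact of_base h1 h3 h4 h6
  intro R k K₀ _ _ _ _ _ _ _ _ _ _ hR h2 a b hB n hn hodd
  have : IsNoetherianRing R := Algebra.FiniteType.isNoetherianRing ℤ R
  have hcard : ∀ M : Ideal R, (Nat.card (Pairs n (R ⧸ M)) : ℝ) =
      (Nat.card (R ⧸ M) : ℝ) ^ (Fintype.card (Fin (n + 1) ⊕ Fin (n + 1))) := by
    intro M
    rw [Nat.card_prod, Nat.card_fun, Fintype.card_sum, Fintype.card_fin, Nat.card_fin,
      pow_add _ (n + 1) (n + 1)]
    push_cast
    rfl
  -- the good vectors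
  obtain ⟨S, hS⟩ : ∃ S : Set (Fin (n + 1) ⊕ Fin (n + 1) → R),
      S = {y | Good k K₀ a b n (poly k (y ∘ Sum.inl)) (poly k (y ∘ Sum.inr))} := ⟨_, rfl⟩
  have hSmem : ∀ y : Pairs n R, toVec y ∈ S ↔ Good k K₀ a b n (poly k y.1) (poly k y.2) := by
    intro y
    rw [hS]
    rfl
  have key : ∀ η : ℝ, 0 < η → ∃ M : Ideal R, Finite (R ⧸ M) ∧
      (1 - η) * (Nat.card (R ⧸ M) : ℝ) ^ (Fintype.card (Fin (n + 1) ⊕ Fin (n + 1))) ≤
        (({x : Fin (n + 1) ⊕ Fin (n + 1) → R ⧸ M | ∀ y : Fin (n + 1) ⊕ Fin (n + 1) → R,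
          (∀ j, Ideal.Quotient.mk M (y j) = x j) → y ∈ S}).ncard : ℝ) := by
    intro η hη
    obtain ⟨M, hM, hd⟩ := Pool.Agent.X243.Gen.densLin R hR h2 (by omega : 3 ≤ n)
      (l := Pool.Agent.X243.Gen.ql R (a * b * (a - b)).roots.toFinset)
      (m := Pool.Agent.X243.Gen.qm R (a * b * (a - b)).roots.toFinset)
      (i₀ := none) (i₁ := some none)
      (Pool.Agent.X243.Gen.q_ne _) (Pool.Agent.X243.Gen.q_det _) η hη
    have := hM
    refine ⟨M, hM, hd.trans ?_⟩
    have h3 : ∀ S T : Set (Fin (n + 1) ⊕ Fin (n + 1) → R ⧸ M), S ⊆ T →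
        ((S.ncard : ℕ) : ℝ) ≤ ((T.ncard : ℕ) : ℝ) := fun S T h => by
      exact_mod_cast Set.ncard_le_ncard h (Set.toFinite _)
    apply h3
    intro x hx y hy
    rw [hS]
    refine good_of h2 hB (B := 2 * n + 2)
      (c := Pool.Agent.X243.Gen.cst (Pool.Agent.X243.Gen.ql R (a * b * (a - b)).roots.toFinset)
        (Pool.Agent.X243.Gen.qm R (a * b * (a - b)).roots.toFinset) none (some none))
      hn hodd (fun s => ?_)
    obtain ⟨p, hp, hp'⟩ := hx s
    exact ⟨p, hp, hp' y hy⟩
  constructor
  · intro η hη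
    obtain ⟨M, hM, hd⟩ := key η hη
    have := hM
    refine ⟨M, hM, ?_⟩
    rw [hcard]
    refine hd.trans ?_
    rw [← Set.ncard_image_of_injective _ (toVec_inj (R := R ⧸ M) (n := n))]
    have h3 : ∀ S T : Set (Fin (n + 1) ⊕ Fin (n + 1) → R ⧸ M), S ⊆ T →
        ((S.ncard : ℕ) : ℝ) ≤ ((T.ncard : ℕ) : ℝ) := fun S T h => by
      exact_mod_cast Set.ncard_le_ncard h (Set.toFinite _)
    apply h3
    intro x hx
    obtain ⟨z, rfl⟩ := toVec_surj x
    refine ⟨z, fun y hy => ?_, rfl⟩
    rw [← hSmem]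
    exact hx _ ((inClass_iff y z).1 hy)
  · intro B hB heq
    have hinj : Function.Injective (toVec (R := R) (n := n)) := toVec_inj
    have hc : ∀ (i : ℕ) (P : (Fin (n + 1) ⊕ Fin (n + 1) → R) → Prop) [DecidablePred P]
        (Q : Pairs n R → Prop) [DecidablePred Q], (∀ y, P (toVec y) ↔ Q y) →
        (((B i).map ⟨toVec, hinj⟩).filter P).card = ((B i).filter Q).card := by
      intro i P _ Q _ hPQ
      rw [Finset.filter_map, Finset.card_map]
      congr 1
      ext y
      rw [Finset.mem_filter, Finset.mem_filter]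
      exact and_congr_right fun _ => hPQ y
    have hlim := Pool.Agent.X243.Gen.tendsto_of_dens S key (fun i => (B i).map ⟨toVec, hinj⟩)
      (fun i => (hB i).map) (by
        intro M hM x
        obtain ⟨z, rfl⟩ := toVec_surj x
        have h1 := heq M hM z
        rw [hcard] at h1
        refine h1.congr fun i => ?_
        rw [Finset.card_map, hc i _ (fun y => InClass y z) (fun y => (inClass_iff y z).symm)])
    refine hlim.congr fun i => ?_
    rw [Finset.card_map, hc i _ (fun y => Good k K₀ a b n (poly k y.1) (poly k y.2)) hSmem]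

end Pool.Agent.Results.MP_89bcae_ag.PullbackPrinciple
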