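import Mathlib
import Pool.Agent.TH115.GD.Defs
import Pool.Agent.X243.CD.Ext

/-!
# No new points, no Tate-Shafarevich group and no new invariant classes, over all extensions, for 100% of
# the polynomial pullbacks of all elliptic surfaces with a section of order two and complete descent

Let `R` be an integrally closed domain which is finitely generated as a ring and not a field, with
`2 ≠ 0` in `R`, and `k` its field of fractions (for example the ring of integers of a number field
`k`). Let `S` be a finite nonempty subset of `k` and `n ≥ 5`. For a polynomial `g` over `k` in the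
variable `t` and an elliptic curve with a point of order two

`E₀ : y² = x (x² + a x + b)`

over `K₀ = k(s)` let `X` be the elliptic surface with the generic fibre

`E : y² = x (x² + a(g(t)) x + b(g(t)))`,

the pullback of `E₀` by `s = g(t)`. (Its geometric genus grows with `n`.)

The curves `E₀` are those with the following properties (`BaseT`, `CompleteT`), where
`d = a² - 4 b` belongs to the isogenous curve: `b d ≠ 0` and all roots of `b d` are in `k`; each of `b`
and `d` has a root of odd multiplicity; and both first descents over `k(s)` are complete: for all monic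
squarefree divisors `A` of `b` which satisfy the parity condition at `s = ∞` (`InfT`) there is a point
`P` in `E₀(k(s))` with `x(P) = A` up to constants of `k` and squares of `k(s)` (where `x(0, 0)` has to be
read as `b`), and the same holds for the isogenous curve `y² = x (x² - 2 a x + d)` and the divisors of
`d`. If `n` is even, then it is also assumed that the parity conditions are empty (`NoInf`): there is no
`m` such that `deg a ≤ 2 m` and `deg b = 4 m` or `deg d = 4 m`.

Call `g` good if the polynomials `g - ξ`, `ξ` in `S`, are irreducible over `k`, separable, of degree `n`,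
and for ALL curves `E₀` with bad places in `S` and `∞` and EVERY extension field `L` of `k` with a
separable closure `L'` the following holds.

(A) If the elements of `L` which are separable algebraic over `k` lie in a normal extension `M` of `k` in
`L'` such that no polynomial `g - ξ`, `ξ` in `S`, splits into linear factors over `M`, then (`HoldsPull`)

(i) the Tate conjecture for divisors at the prime 2 holds for `X` over `L`;

(ii) `E(L(t)) = 2 E(L(t)) + E₀(k(s))`, where `E₀(k(s))` is embedded by `s = g(t)`: every point of `E` over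
`L(t)` is `2 Q + P₁ + P₂` with points `P₁`, `P₂` with coordinates in `k(s)`. So if `E(L(t))` is finitely
generated, then the image of `E₀(k(s))` has a finite odd index in it: the rank is the one of
`E₀(k(s))`, for all `L`;

(iii) if the parity conditions of `E₀` are empty (`NoInf`), then every class of 2-power order in
`H¹(L(t), E)` which is trivial over the completions of `L(t)` at all finite places is zero; so the
Tate-Shafarevich group has no element of order two.

(B) The same holds if for each element of `L` which is separable algebraic over `k` the Galois group of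
its minimal polynomial over `k` is solvable.

Theorem.

(1) (Congruences.) For every `η > 0` there is an ideal `M` of `R` with finite quotient such that a
proportion at least `1 - η` of the residue classes modulo `M` of polynomials of degree at most `n` over
`R` has the property that EVERY polynomial over `R` in it is good.

(2) (100%.) Let `B 0`, `B 1`, ... be a sequence of nonempty finite sets of polynomials of degree at most
`n` over `R` which is equidistributed modulo each ideal of `R` with finite quotient. Then the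
proportion of the good polynomials in `B i` tends to `1`.

(3) (Examples.) The following curves `E₀` have the properties, including `NoInf`; they are universal for
a point of order two, of rank one and (in general) of rank two over `k(s)`.

`y² = x (x² + x + s)`;

`y² = x (x² + (w² + α + β - 2 s) x + (s - α) (s - β))` with `w ≠ 0`, `α ≠ β`, with the points
`(s - α, w (s - α))`, `(s - β, w (s - β))`;

`y² = x (x² - 2 ((1 + μ + μ²) s + μ² (1 + μ)²) x + (s + (1 + μ)²) (s + μ² (1 + μ)²) (s + μ²))` with
`μ ≠ 0, -1`, with the points `(c² z, c s z)` for `(c, z) = (μ, s + (1 + μ)²)`,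
`(1, s + μ² (1 + μ)²)`, `(1 + μ, s + μ²)`.

`TateAtTwo` is the statement that the Galois-invariant classes of the 2-adic Selmer group come from
points; as `Br(X ⊗ L') = Ш(E / L'(t))` away from the characteristic (Grothendieck), it is the Tate
conjecture for divisors for `ℓ = 2` and `X` over `L`. For a number field `k` and a Galois-stable subspace
`V` of `H²(X ⊗ k̄, ℚ₂(1))` such that `A_n` is no composition factor of the image of the Galois group in
`GL(V)` the condition (A) holds for the field `L = M` which belongs to the kernel: `V` consists of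
classes of divisors.
-/

namespace Pool.Agent.Results.MP_89bcae_ag.PullbacksNoNewPoints

open Polynomial Pool.Agent.TH115.GD Pool.Agent.X243.Gen Pool.Agent.X243.CD Filter Topology
open scoped Classical

/-- The polynomial over `k` with the coefficients `c`. -/
noncomputable def poly {R : Type} [CommRing R] (k : Type) [Field k] [Algebra R k] {r : ℕ}
    (c : Fin r → R) : k[X] :=
  ∑ j : Fin r, C (algebraMap R k (c j)) * X ^ (j : ℕ)

/-- The good polynomials. -/
structure Good (k : Type) [Field k] (S : Finset k) (n : ℕ) (g : k[X]) : Prop where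
  irr : ∀ ξ ∈ S, Irreducible (g - C ξ) ∧ (g - C ξ).natDegree = n ∧ (g - C ξ).Separable
  tate : ∀ (K₀ : Type) [Field K₀] [Algebra k[X] K₀] [IsFractionRing k[X] K₀] (a b : k[X]),
    BaseT K₀ a b → (∀ ξ, (b * (a ^ 2 - 4 * b)).IsRoot ξ → ξ ∈ S) → (Odd n ∨ NoInf a b) →
    ∀ (L L' K F : Type) [Field L] [Field L'] [Algebra L L'] [Field K] [Algebra L[X] K]
    [IsFractionRing L[X] K] [Field F] [Algebra L'[X] F] [IsFractionRing L'[X] F] [Algebra K F]
    [Algebra k L] [Algebra k L'] [IsScalarTower k L L'], IsTower L L' K F →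
      ∀ M : IntermediateField k L', Normal k M →
        (∀ x : L, IsSeparable k x → algebraMap L L' x ∈ M) →
        (∀ ξ ∈ S, ¬ ((g - C ξ).map (algebraMap k M)).Splits) →
        HoldsPull K₀ L' K F a b (g.map (algebraMap k L))
  solv : ∀ (K₀ : Type) [Field K₀] [Algebra k[X] K₀] [IsFractionRing k[X] K₀] (a b : k[X]),
    BaseT K₀ a b → (∀ ξ, (b * (a ^ 2 - 4 * b)).IsRoot ξ → ξ ∈ S) → (Odd n ∨ NoInf a b) →
    ∀ (L L' K F : Type) [Field L] [Field L'] [Algebra L L'] [Field K] [Algebra L[X] K]
    [IsFractionRing L[X] K] [Field F] [Algebra L'[X] F] [IsFractionRing L'[X] F] [Algebra K F]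
    [Algebra k L] [Algebra k L'] [IsScalarTower k L L'], IsTower L L' K F →
      (∀ x : L, IsSeparable k x → Group.IsSolvable (minpoly k x).Gal) →
        HoldsPull K₀ L' K F a b (g.map (algebraMap k L))

/-- The polynomial `y` over `R` is in the residue class `z`. -/
def InClass {R : Type} [CommRing R] {n : ℕ} {M : Ideal R} (y : Fin (n + 1) → R)
    (z : Fin (n + 1) → R ⧸ M) : Prop := ∀ j, Ideal.Quotient.mk M (y j) = z j

/-- A sequence of finite sets of polynomials which is equidistributed modulo each ideal with finite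
quotient. -/
def Equidistributed {R : Type} [CommRing R] {n : ℕ} (B : ℕ → Finset (Fin (n + 1) → R)) : Prop :=
  ∀ M : Ideal R, Finite (R ⧸ M) → ∀ z : Fin (n + 1) → R ⧸ M,
    Tendsto (fun i => (((B i).filter (fun y => InClass y z)).card : ℝ) / ((B i).card : ℝ)) atTop
      (𝓝 (1 / (Nat.card (R ⧸ M) : ℝ) ^ (n + 1)))

/-- The three families of examples. -/
def Example {k : Type} [Field k] (a b : k[X]) : Prop :=
  (a = 1 ∧ b = X) ∨
  (∃ w α β : k, w ≠ 0 ∧ α ≠ β ∧ a = C (w ^ 2 + α + β) - 2 * X ∧ b = (X - C α) * (X - C β)) ∨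
  (∃ μ : k, μ ≠ 0 ∧ μ ≠ -1 ∧ a = -2 * (C (1 + μ + μ ^ 2) * X + C (μ * (1 + μ)) ^ 2) ∧
    b = (X + C (1 + μ) ^ 2) * (X + C (μ * (1 + μ)) ^ 2) * (X + C μ ^ 2))

theorem good_of {R k : Type} [CommRing R] [IsDomain R] [IsIntegrallyClosed R]
    [IsNoetherianRing R] [Field k] [Algebra R k] [IsFractionRing R k] (h2 : (2 : R) ≠ 0)
    {S : Finset k} (hS : S.Nonempty) {n B : ℕ} {c : R} (hn : 5 ≤ n)
    {y : Fin (n + 1) → R}
    (h : ∀ i : S × Fin 3, ∃ p ∈ Zc R B c,
      (fun j => Ideal.Quotient.mk p (y j)) ∈ Aev n (lv R S) (sv R S n) i p) :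
    Good k S n (poly k y) := by
  have h2k : (2 : k) ≠ 0 := by
    rw [← map_ofNat (algebraMap R k) 2]
    exact (map_ne_zero_iff _ (IsFractionRing.injective R k)).2 h2
  have hg : poly k y = (Pool.Agent.Y160.T3.bF y).map (algebraMap R k) :=
    (Pool.Agent.X243.Tate.bF_map (algebraMap R k) y).symm
  have hF := poly_good (k := k) (by omega) h (poly k y) hg
  obtain ⟨ξ₀, hξ₀⟩ := hS
  have hdeg : (poly k y).natDegree = n := by
    have := (hF ξ₀ hξ₀).1.2
    rwa [natDegree_sub_C] at this
  refine ⟨fun ξ hξ => ⟨(hF ξ hξ).1.1, (hF ξ hξ).1.2, (hF ξ hξ).2.1⟩, ?_, ?_⟩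
  · intro K₀ _ _ _ a b hB hroots hpar L L' K F _ _ _ _ _ _ _ _ _ _ _ _ _ hT M hMn hM hns
    exact hold_ext h2k hB hn hdeg (fun ξ hξ => hF ξ (hroots ξ hξ)) hpar hT M hMn hM
      (fun ξ hξ => hns ξ (hroots ξ hξ))
  · intro K₀ _ _ _ a b hB hroots hpar L L' K F _ _ _ _ _ _ _ _ _ _ _ _ _ hT hM
    exact hold_solv h2k hB hn hdeg (fun ξ hξ => hF ξ (hroots ξ hξ)) hpar hT hM

theorem result :
    (∀ (R k : Type) [CommRing R] [IsDomain R] [IsIntegrallyClosed R] [Algebra.FiniteType ℤ R]
      [Field k] [Algebra R k] [IsFractionRing R k], ¬ IsField R → (2 : R) ≠ 0 →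
      ∀ S : Finset k, S.Nonempty → ∀ n : ℕ, 5 ≤ n →
        (∀ η : ℝ, 0 < η → ∃ M : Ideal R, Finite (R ⧸ M) ∧
          (1 - η) * (Nat.card (R ⧸ M) : ℝ) ^ (n + 1) ≤
          (({z : Fin (n + 1) → R ⧸ M | ∀ y : Fin (n + 1) → R, InClass y z →
                Good k S n (poly k y)}.ncard : ℕ) : ℝ)) ∧
        (∀ B : ℕ → Finset (Fin (n + 1) → R), (∀ i, (B i).Nonempty) → Equidistributed B →
          Tendsto (fun i => (((B i).filter (fun y => Good k S n (poly k y))).card : ℝ) /
            ((B i).card : ℝ)) atTop (𝓝 1))) ∧
    (∀ (k K₀ : Type) [Field k] [Field K₀] [Algebra k[X] K₀] [IsFractionRing k[X] K₀],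
      (2 : k) ≠ 0 → ∀ a b : k[X], Example a b → BaseT K₀ a b ∧ NoInf a b) := by
  constructor
  swap
  · rintro k K₀ _ _ _ _ h2 a b (⟨rfl, rfl⟩ | ⟨w, α, β, hw, hαβ, rfl, rfl⟩ | ⟨μ, hμ, hμ1, rfl, rfl⟩)
    · exact baseT0 h2
    · exact baseT1 h2 hw hαβ
    · exact baseT2 h2 hμ hμ1
  intro R k _ _ _ _ _ _ _ hR h2 S hS n hn
  have : IsNoetherianRing R := Algebra.FiniteType.isNoetherianRing ℤ R
  -- the good vectors
  obtain ⟨T, hT⟩ : ∃ T : Set (Fin (n + 1) → R), T = {y | Good k S n (poly k y)} := ⟨_, rfl⟩
  have key : ∀ η : ℝ, 0 < η → ∃ M : Ideal R, Finite (R ⧸ M) ∧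
      (1 - η) * (Nat.card (R ⧸ M) : ℝ) ^ (Fintype.card (Fin (n + 1))) ≤
        (({x : Fin (n + 1) → R ⧸ M | ∀ y : Fin (n + 1) → R,
          (∀ j, Ideal.Quotient.mk M (y j) = x j) → y ∈ T}).ncard : ℝ) := by
    intro η hη
    obtain ⟨M, hM, hd⟩ := densAff R hR h2 (by omega : 3 ≤ n) (l := lv R S) (lv_ne S) η hη
    have := hM
    refine ⟨M, hM, (hd (sv R S n)).trans ?_⟩
    have h3 : ∀ S T : Set (Fin (n + 1) → R ⧸ M), S ⊆ T →
        ((S.ncard : ℕ) : ℝ) ≤ ((T.ncard : ℕ) : ℝ) := fun S T h => by
      exact_mod_cast Set.ncard_le_ncard h (Set.toFinite _)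
    apply h3
    intro x hx y hy
    rw [hT]
    refine good_of h2 hS (B := 2 * n + 2) (c := ∏ i, lv R S i) hn (fun s => ?_)
    obtain ⟨p, hp, hp'⟩ := hx s
    exact ⟨p, hp, hp' y hy⟩
  constructor
  · intro η hη
    obtain ⟨M, hM, hd⟩ := key η hη
    rw [Fintype.card_fin, hT] at hd
    exact ⟨M, hM, hd⟩
  · intro B hB heq
    have hc : ∀ (i : ℕ) (P Q : (Fin (n + 1) → R) → Prop) (d : DecidablePred P)
        (d' : DecidablePred Q), (∀ y, P y ↔ Q y) →
        (@Finset.filter _ P d (B i)).card = (@Finset.filter _ Q d' (B i)).card := by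
      intro i P Q d d' hPQ
      congr 1
      ext y
      rw [Finset.mem_filter, Finset.mem_filter]
      exact and_congr_right fun _ => hPQ y
    have hlim := tendsto_of_dens T key B hB (by
      intro M hM x
      have h1 := heq M hM x
      rw [Fintype.card_fin]
      refine h1.congr fun i => ?_
      exact congrArg (fun s : ℕ => (s : ℝ) / ((B i).card : ℝ)) (hc i _ _ _ _ fun y => Iff.rfl))
    refine hlim.congr fun i => ?_
    exact congrArg (fun s : ℕ => (s : ℝ) / ((B i).card : ℝ))
      (hc i _ _ _ _ fun y => by rw [hT]; exact Iff.rfl)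

end Pool.Agent.Results.MP_89bcae_ag.PullbacksNoNewPoints
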